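import Pool.Agent.H95.ESL.Stmts

/-!
Row `QRP` of the board `esl` (helper95): Dirichlet and quadratic reciprocity.
-/

set_option autoImplicit false

namespace ESL

/-- If all prime divisors of `n` are squares modulo `p`, then `n` is. -/
private theorem qrp_prod (p : ℕ) [Fact p.Prime] (n : ℕ)
    (h : ∀ q : ℕ, q.Prime → q ∣ n → IsSquare ((q : ℕ) : ZMod p)) :
    n ≠ 0 → IsSquare ((n : ℕ) : ZMod p) := by
  induction n using induction_on_primes with
  | zero => intro h0; exact absurd rfl h0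
  | one => intro _; exact ⟨1, by simp⟩
  | prime_mul q a hq ih =>
    intro h0
    have ha0 : a ≠ 0 := fun h1 => h0 (by rw [h1, mul_zero])
    have h1 := h q hq (dvd_mul_right q a)
    have h2 := ih (fun r hr hra => h r hr (hra.mul_left q)) ha0
    rw [Nat.cast_mul]
    exact h1.mul h2

theorem qrp_thm : S_QRP := by
  intro D q₁ q₂ hD hq1 hq2 hne h31 h32 hnd
  have : Fact q₂.Prime := ⟨hq2⟩
  -- a nonresidue modulo `q₂`
  obtain ⟨ν, hν⟩ := FiniteField.exists_nonsquare (F := ZMod q₂) (by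
    rw [ZMod.ringChar_zmod_n]; omega)
  set N : ℕ := 8 * D.natAbs * q₁ with hN
  have hDn : D.natAbs ≠ 0 := Int.natAbs_ne_zero.mpr hD
  have hN0 : N ≠ 0 := by
    rw [hN]; exact Nat.mul_ne_zero (Nat.mul_ne_zero (by norm_num) hDn) (by omega)
  have hcopN : Nat.Coprime N q₂ := by
    rw [hN]
    refine Nat.Coprime.mul_left (Nat.Coprime.mul_left ?_ ?_) ?_
    · have : Nat.Coprime 2 q₂ := (Nat.coprime_primes Nat.prime_two hq2).mpr (by omega)
      have h8 : (8 : ℕ) = 2 ^ 3 := by norm_num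
      rw [h8]; exact Nat.Coprime.pow_left 3 this
    · refine Nat.Coprime.symm ((Nat.Prime.coprime_iff_not_dvd hq2).mpr ?_)
      intro hdv
      exact hnd (Int.natCast_dvd.mpr hdv)
    · exact (Nat.coprime_primes hq1 hq2).mpr hne
  obtain ⟨k, hk1, hk2⟩ := Nat.chineseRemainder hcopN 1 ν.val
  have hkN : k.Coprime N := by
    have := hk1.gcd_eq
    rw [Nat.gcd_one_left] at this
    exact this
  have hν0 : ν ≠ 0 := fun h0 => hν (by rw [h0]; exact ⟨0, by simp⟩)
  have hkq : k.Coprime q₂ := by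
    refine Nat.Coprime.symm ((Nat.Prime.coprime_iff_not_dvd hq2).mpr ?_)
    intro hdv
    have h1 : ((k : ℕ) : ZMod q₂) = 0 := (ZMod.natCast_eq_zero_iff k q₂).mpr hdv
    have h2 : ((k : ℕ) : ZMod q₂) = ((ν.val : ℕ) : ZMod q₂) :=
      (ZMod.natCast_eq_natCast_iff _ _ _).mpr hk2
    rw [h1, ZMod.natCast_zmod_val] at h2
    exact hν0 h2.symm
  have hcop : k.Coprime (N * q₂) := Nat.Coprime.mul_right hkN hkq
  obtain ⟨p, hpgt, hpp, hpk⟩ := Nat.forall_exists_prime_gt_and_modEq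
    (5 + D.natAbs + q₁ * q₂) (q := N * q₂) (a := k)
    (Nat.mul_ne_zero hN0 hq2.ne_zero) hcop
  have : Fact p.Prime := ⟨hpp⟩
  have hpN : p ≡ 1 [MOD N] := (hpk.of_mul_right q₂).trans hk1
  have hpq : p ≡ ν.val [MOD q₂] := (hpk.of_mul_left N).trans hk2
  have hp8 : p % 8 = 1 := by
    have h1 : p ≡ 1 [MOD 8] := hpN.of_dvd (by
      rw [hN]; exact Dvd.dvd.mul_right (Dvd.intro _ rfl) _)
    exact h1
  have hp4 : p % 4 = 1 := by omega
  have hp2 : p ≠ 2 := by omega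
  -- prime divisors of `N` are squares
  have hsq : ∀ q : ℕ, q.Prime → q ∣ N → IsSquare ((q : ℕ) : ZMod p) := by
    intro q hq hqN
    have : Fact q.Prime := ⟨hq⟩
    by_cases h2 : q = 2
    · subst h2
      exact (ZMod.exists_sq_eq_two_iff hp2).mpr (Or.inl hp8)
    · rw [ZMod.exists_sq_eq_prime_iff_of_mod_four_eq_one hp4 h2]
      have h1 : p ≡ 1 [MOD q] := hpN.of_dvd hqN
      have h3 : ((p : ℕ) : ZMod q) = ((1 : ℕ) : ZMod q) :=
        (ZMod.natCast_eq_natCast_iff _ _ _).mpr h1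
      rw [h3]
      exact ⟨1, by simp⟩
  have hsqD : IsSquare ((D.natAbs : ℕ) : ZMod p) := by
    refine qrp_prod p D.natAbs (fun q hq hqD => hsq q hq ?_) hDn
    rw [hN]; exact (hqD.mul_left 8).mul_right q₁
  have hneg : IsSquare (-1 : ZMod p) := ZMod.exists_sq_eq_neg_one_iff.mpr (by omega)
  have hq₁sq : IsSquare ((q₁ : ℕ) : ZMod p) := hsq q₁ hq1 (by rw [hN]; exact Dvd.intro_left _ rfl)
  have hq₂sq : ¬ IsSquare ((q₂ : ℕ) : ZMod p) := by
    rw [ZMod.exists_sq_eq_prime_iff_of_mod_four_eq_one hp4 (by omega : q₂ ≠ 2)]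
    have h3 : ((p : ℕ) : ZMod q₂) = ((ν.val : ℕ) : ZMod q₂) :=
      (ZMod.natCast_eq_natCast_iff _ _ _).mpr hpq
    rw [h3, ZMod.natCast_zmod_val]
    exact hν
  refine ⟨p, hpp, by omega, hp4, ?_, ?_, ?_, ?_⟩
  · intro hdv
    have h1 : p ∣ D.natAbs := Int.natCast_dvd.mp hdv
    have := Nat.le_of_dvd (Nat.pos_of_ne_zero hDn) h1
    omega
  · intro hdv
    have := Nat.le_of_dvd (Nat.mul_pos hq1.pos hq2.pos) hdv
    omega
  · rcases Int.natAbs_eq D with h | h
    · have e : ((-D : ℤ) : ZMod p) = -1 * ((D.natAbs : ℕ) : ZMod p) := by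
        rw [h]; push_cast; simp
      rw [e]; exact hneg.mul hsqD
    · have e : ((-D : ℤ) : ZMod p) = ((D.natAbs : ℕ) : ZMod p) := by
        rw [h]; push_cast; simp
      rw [e]; exact hsqD
  · intro hs
    apply hq₂sq
    obtain ⟨c, hc⟩ := hs
    obtain ⟨d, hd⟩ := hq₁sq
    have hq10 : ((q₁ : ℕ) : ZMod p) ≠ 0 := by
      intro h0
      have h1 : p ∣ q₁ := (ZMod.natCast_eq_zero_iff q₁ p).mp h0
      have h2 := Nat.le_of_dvd hq1.pos h1
      have h3 : q₁ ≤ q₁ * q₂ := Nat.le_mul_of_pos_right _ hq2.pos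
      omega
    have hd0 : d ≠ 0 := by
      intro h0
      rw [h0, mul_zero] at hd
      exact hq10 hd
    refine ⟨c / d, ?_⟩
    rw [Nat.cast_mul, hd] at hc
    have : ((q₂ : ℕ) : ZMod p) = c * c / (d * d) := by
      rw [← hc]; field_simp
    rw [this]; field_simp

end ESL
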